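import Pool.Agent.L0h7.UB.Main

/-!
# Analytic zero divisors: the kernel dimension and the cosets of a locally indicable subgroup

Let `α` be a nonzero element of the complex group algebra of a group `G`.  If the support of `α` meets only `k` left
cosets of a locally indicable subgroup `H` (for example of the subgroup generated by an element of infinite order, or
of the trivial subgroup), then the kernel of `α` on `ℓ²(G)` has von Neumann dimension at most `1 - 1/k`.  If every
`g ≠ 1` is a quotient `s⁻¹ t` of at most `m` pairs of elements of the support, which has `n` elements, then the dimension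
is at most `m (n - 1) / (m (n - 1) + n)`.  For torsion-free groups this gives the bound `(n - 1)² / (n² + 1)` for all
elements with `n` terms, and the bound `1/2` for all elements with at most four terms.
-/

set_option autoImplicit false

universe u

namespace Pool.Agent.Results.MP_0f25e6_al.FewCosets

/-- All square-summable `f` with `α * f = 0`, where `(α * f)(g) = ∑ α(k) f(k⁻¹ g)`. -/
def kernel {G : Type u} [Group G] (α : G →₀ ℂ) : Set (lp (fun _ : G => ℂ) 2) :=
  {f | ∀ g : G, ∑ k ∈ α.support, α k * f (k⁻¹ * g) = 0}

open Classical in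
/-- The von Neumann dimension of the kernel of left convolution by `α` on `ℓ²(G)`: one minus the
square of the distance from the basis vector at the identity of `G` to the kernel (this is the
squared length of the projection of that vector to the kernel). -/
noncomputable def kerDim {G : Type u} [Group G] (α : G →₀ ℂ) : ℝ :=
  1 - Metric.infDist (lp.single 2 (1 : G) (1 : ℂ)) (kernel α) ^ 2

/-- A group is locally indicable if every nontrivial finitely generated subgroup has a nontrivial
homomorphism to the group of integers. -/
def LocallyIndicable (H : Type u) [Group H] : Prop :=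
  ∀ K : Subgroup H, K.FG → K ≠ ⊥ → ∃ φ : K →* Multiplicative ℤ, ∃ k, φ k ≠ 1

/-- `G` is torsion-free. -/
def TorsionFree (G : Type u) [Group G] : Prop := ∀ g : G, ∀ k : ℕ, 0 < k → g ^ k = 1 → g = 1

/-- The set of the left cosets of `H` which meet the support of `α`. -/
def cosets {G : Type u} [Group G] (H : Subgroup G) (α : G →₀ ℂ) : Set (G ⧸ H) :=
  {c | ∃ x ∈ α.support, (QuotientGroup.mk x : G ⧸ H) = c}

/-- The number of the pairs `(s, t)` of elements of the support of `α` with `s⁻¹ t = g`. -/
noncomputable def multiplicity {G : Type u} [Group G] (α : G →₀ ℂ) (g : G) : ℕ :=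
  {p : G × G | p.1 ∈ α.support ∧ p.2 ∈ α.support ∧ p.1⁻¹ * p.2 = g}.ncard

open Pool.Agent.L0h7.UB

theorem kerDim_eq {G : Type u} [Group G] (α : G →₀ ℂ) : kerDim α = kv α :=
  W649.ZL.kerDim_eq_vd α

/-- Let `α` be a nonzero element of the complex group algebra of a group `G`, with `n` elements in the support.

(1) If the support meets `k` left cosets of a locally indicable subgroup, then `dim ker α ≤ 1 - 1/k`.

(2) If every `g ≠ 1` has multiplicity at most `m`, then `dim ker α ≤ m (n - 1) / (m (n - 1) + n)`.

(3) If `G` is torsion-free then `dim ker α ≤ (n - 1)² / (n² + 1)`.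

(4) If `G` is torsion-free and `n ≤ 4` then `dim ker α ≤ 1/2`. -/
theorem result {G : Type u} [Group G] (α : G →₀ ℂ) (hα : α ≠ 0) (n : ℕ)
    (hn : n = α.support.card) :
    (∀ H : Subgroup G, LocallyIndicable H → kerDim α ≤ 1 - 1 / ((cosets H α).ncard : ℝ)) ∧
    (∀ m : ℕ, (∀ g : G, g ≠ 1 → multiplicity α g ≤ m) →
      kerDim α ≤ m * (n - 1) / (m * (n - 1) + n)) ∧
    (TorsionFree G → kerDim α ≤ ((n : ℝ) - 1) ^ 2 / ((n : ℝ) ^ 2 + 1)) ∧
    (TorsionFree G → n ≤ 4 → kerDim α ≤ 1 / 2) := by
  classical
  have hn1 : (1 : ℝ) ≤ n := by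
    rw [hn]
    exact_mod_cast Finset.card_pos.2 (Finsupp.support_nonempty_iff.2 hα)
  refine ⟨fun H hH => ?_, fun m hm => ?_, fun hG => ?_, fun hG h4 => ?_⟩
  · have h1 := cosets' H hH α hα
    have h2 : (cosets H α).ncard = cosetsOf H α := by
      have h3 : cosets H α = ((α.support.image (QuotientGroup.mk : G → G ⧸ H) : Finset (G ⧸ H)) :
          Set (G ⧸ H)) := by
        ext c
        simp [cosets]
      rw [h3, Set.ncard_coe_finset]
      rfl
    rw [h2, kerDim_eq]
    have h3 : (0 : ℝ) < cosetsOf H α := by
      by_contra hcon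
      have : (cosetsOf H α : ℝ) = 0 := le_antisymm (not_lt.1 hcon) (by positivity)
      rw [this, zero_mul] at h1
      linarith
    rw [le_sub_iff_add_le, ← le_sub_iff_add_le', div_le_iff₀ h3]
    linarith
  · have h1 : ∀ g, g ≠ 1 → mult α.support g ≤ m := by
      intro g hg
      refine le_trans (le_of_eq ?_) (hm g hg)
      unfold mult multiplicity
      rw [← Set.ncard_coe_finset]
      congr 1
      ext ⟨a, b⟩
      simp [and_assoc]
    have h2 := gram α hα m h1
    rw [← hn] at h2
    have h3 : (0 : ℝ) ≤ m * (n - 1) := mul_nonneg (by positivity) (by linarith)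
    rw [kerDim_eq, le_div_iff₀ (by linarith)]
    exact h2
  · rw [kerDim_eq, hn]
    exact (tf_bound hG α hα).1
  · rw [kerDim_eq]
    exact (tf_bound hG α hα).2 (hn ▸ h4)

end Pool.Agent.Results.MP_0f25e6_al.FewCosets
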