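import Pool.Agent.L0h95.AZ.Fin

/-!
# Analytic zero divisors and parts of the support with finite abelianization

For a finite subset `F` of a group `G` let `quotients F` be the subgroup generated by the elements
`x⁻¹ * y` with `x`, `y` in `F`.  Every nonzero element `α` of the complex group algebra has a
nonempty part, supported on a subset `F` for which `quotients F` has finite abelianization, whose
kernel on `ℓ²(G)` is at least as large as the kernel of `α`.
-/

set_option autoImplicit false

noncomputable section

namespace Pool.Agent.Results.MP_0f25e6_al.FiniteAbelianizationParts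

/-- `α * f` is nonzero for every nonzero square-summable `f`, where
`(α * f)(g) = ∑ α(k) f(k⁻¹ g)`. -/
def Regular {G : Type} [Group G] (α : G →₀ ℂ) : Prop :=
  ∀ f : G → ℂ, Memℓp f 2 → f ≠ 0 → ∃ g : G, ∑ k ∈ α.support, α k * f (k⁻¹ * g) ≠ 0

/-- All square-summable `f` with `α * f = 0`. -/
def kernel {G : Type} [Group G] (α : G →₀ ℂ) : Set (lp (fun _ : G => ℂ) 2) :=
  {f | ∀ g : G, ∑ k ∈ α.support, α k * f (k⁻¹ * g) = 0}

open Classical in
/-- The von Neumann dimension of the kernel of left convolution by `α`: one minus the square of the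
distance from the basis vector at the identity of `G` to the kernel (this is the squared length of
the projection of that vector to the kernel). -/
def kerDim {G : Type} [Group G] (α : G →₀ ℂ) : ℝ :=
  1 - Metric.infDist (lp.single 2 (1 : G) (1 : ℂ)) (kernel α) ^ 2

/-- The subgroup generated by the elements `x⁻¹ * y` with `x` and `y` in `F`. -/
def quotients {G : Type} [Group G] (F : Finset G) : Subgroup G :=
  Subgroup.closure {g | ∃ x ∈ F, ∃ y ∈ F, g = x⁻¹ * y}

/-- `G` is torsion-free. -/
def TorsionFree (G : Type) [Group G] : Prop := ∀ g : G, ∀ n : ℕ, 0 < n → g ^ n = 1 → g = 1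

open Pool.Agent.L0h95.AZ Pool.Agent.W649.ZL

variable {G : Type} [Group G]

theorem kerDim_eq (α : G →₀ ℂ) : kerDim α = kd α := kerDim_eq_vd α

theorem regular_of_kd (α : G →₀ ℂ) (h : kd α ≤ 0) : Regular α := by
  apply (regular_iff α).2
  exact injective_of_vd_eq_zero _ (cop_eqv _) h

theorem kd_of_regular (α : G →₀ ℂ) (h : Regular α) : kd α = 0 :=
  vd_ker_of_injective _ ((regular_iff α).1 h)

theorem quotients_eq (F : Finset G) : quotients F = quo F := rfl

/-- the subgroup generated by the quotients is finitely generated by `|F| - 1` elements -/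
theorem quo_gen [DecidableEq G] (F : Finset G) (x : G) (hx : x ∈ F) :
    quo F = Subgroup.closure (((F.erase x).image (fun y => x⁻¹ * y) : Finset G) : Set G) := by
  apply le_antisymm
  · refine (Subgroup.closure_le _).2 ?_
    have key : ∀ y ∈ F, x⁻¹ * y ∈
        Subgroup.closure (((F.erase x).image (fun y => x⁻¹ * y) : Finset G) : Set G) := by
      intro y hy
      by_cases hyx : y = x
      · rw [hyx, inv_mul_cancel]
        exact Subgroup.one_mem _
      · apply Subgroup.subset_closure
        rw [Finset.mem_coe, Finset.mem_image]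
        exact ⟨y, Finset.mem_erase.2 ⟨hyx, hy⟩, rfl⟩
    rintro g ⟨y, hy, z, hz, rfl⟩
    have h1 : y⁻¹ * z = (x⁻¹ * y)⁻¹ * (x⁻¹ * z) := by group
    rw [h1]
    exact Subgroup.mul_mem _ (Subgroup.inv_mem _ (key y hy)) (key z hz)
  · refine (Subgroup.closure_le _).2 ?_
    intro g hg
    rw [Finset.mem_coe, Finset.mem_image] at hg
    obtain ⟨y, hy, rfl⟩ := hg
    exact mem_quo hx (Finset.mem_of_mem_erase hy)

theorem quo_fg (F : Finset G) : (quo F).FG := by
  classical
  rcases F.eq_empty_or_nonempty with h | ⟨x, hx⟩
  · subst h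
    have : quo (∅ : Finset G) = ⊥ := by
      unfold quo
      rw [Subgroup.closure_eq_bot_iff]
      rintro g ⟨x, hx, -⟩
      simp at hx
    rw [this]
    exact ⟨∅, by simp⟩
  · exact ⟨_, (quo_gen F x hx).symm⟩

theorem ni_iff (F : Finset G) : NI (quo F) ↔ Finite (Abelianization (quo F)) :=
  ⟨fun h => finite_of_ni _ ((Group.fg_iff_subgroup_fg _).2 (quo_fg F)) h,
    fun h => ni_of_finite _ h⟩

/-- a single term is regular -/
theorem kd_single (t : G) (c : ℂ) (hc : c ≠ 0) : kd (Finsupp.single t c) = 0 := by
  apply vd_ker_of_injective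
  rw [cop_single]
  intro f g hfg
  apply Ltr_injective t
  have h1 : c • Ltr t f = c • Ltr t g := hfg
  exact smul_right_injective _ hc h1

theorem kd_card_one (α : G →₀ ℂ) (F : Finset G) (hF : F ⊆ α.support) (h : F.card = 1) :
    kd (part α F) = 0 := by
  obtain ⟨t, ht⟩ := Finset.card_eq_one.1 h
  have h1 : part α F = Finsupp.single t (α t) := by
    ext x
    by_cases hx : x ∈ F
    · rw [part_pos _ _ hx]
      rw [ht, Finset.mem_singleton] at hx
      rw [hx, Finsupp.single_eq_same]
    · rw [part_neg _ _ hx]
      rw [ht, Finset.mem_singleton] at hx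
      rw [Finsupp.single_eq_of_ne hx]
  rw [h1]
  apply kd_single
  apply Finsupp.mem_support_iff.1 (hF _)
  rw [ht]
  exact Finset.mem_singleton_self _

/-- **Parts of the support with finite abelianization.** -/
theorem result :
    (∀ (G : Type) [Group G] (α : G →₀ ℂ), α ≠ 0 →
      ∃ F ⊆ α.support, F.Nonempty ∧ Finite (Abelianization (quotients F)) ∧
        (∃ β : G →₀ ℂ, (∀ x ∈ F, β x = α x) ∧ (∀ x, x ∉ F → β x = 0) ∧
          kerDim α ≤ kerDim β) ∧
        (Infinite (Abelianization (quotients α.support)) → 2 * F.card ≤ α.support.card)) ∧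
    (∀ (G : Type) [Group G] (m : ℕ),
      (∀ S : Finset G, S.card ≤ m → (∃ s ∈ S, s ≠ 1) →
        Infinite (Abelianization (Subgroup.closure (S : Set G)))) →
      ∀ α : G →₀ ℂ, α ≠ 0 →
        (α.support.card ≤ m + 1 ∨
          (α.support.card ≤ 2 * m + 3 ∧ Infinite (Abelianization (quotients α.support)))) →
        Regular α) ∧
    (∀ (G : Type) [Group G], TorsionFree G →
      ∀ α : G →₀ ℂ, α ≠ 0 → α.support.card ≤ 5 →
        Infinite (Abelianization (quotients α.support)) → Regular α) ∧
    (∀ (G : Type) [Group G],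
      (∀ α : G →₀ ℂ, α ≠ 0 → Regular α) ↔
        ∀ K : Subgroup G, K.FG → Finite (Abelianization K) →
          ∀ β : K →₀ ℂ, β ≠ 0 → Regular β) := by
  classical
  have h1 : ∀ (G : Type) [Group G] (α : G →₀ ℂ), α ≠ 0 →
      ∃ F ⊆ α.support, F.Nonempty ∧ Finite (Abelianization (quotients F)) ∧
        kd α ≤ kd (part α F) ∧
        (Infinite (Abelianization (quotients α.support)) → 2 * F.card ≤ α.support.card) := by
    intro G _ α hα
    obtain ⟨F, hF, hne, hNI, hk, hcard⟩ := main _ α hα rfl
    refine ⟨F, hF, hne, (ni_iff F).1 hNI, hk, fun hinf => hcard fun h => ?_⟩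
    exact not_finite_iff_infinite.2 hinf ((ni_iff α.support).1 h)
  have h2 : ∀ (G : Type) [Group G] (m : ℕ),
      (∀ S : Finset G, S.card ≤ m → (∃ s ∈ S, s ≠ 1) →
        Infinite (Abelianization (Subgroup.closure (S : Set G)))) →
      ∀ α : G →₀ ℂ, α ≠ 0 →
        (α.support.card ≤ m + 1 ∨
          (α.support.card ≤ 2 * m + 3 ∧ Infinite (Abelianization (quotients α.support)))) →
        Regular α := by
    intro G _ m hG α hα hcard
    obtain ⟨F, hF, hne, hfin, hk, hF2⟩ := h1 G α hα
    have hle : F.card ≤ m + 1 := by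
      rcases hcard with h | ⟨h, hinf⟩
      · exact (Finset.card_le_card hF).trans h
      · have := hF2 hinf
        omega
    have hone : F.card = 1 := by
      by_contra hcon
      have hpos := hne.card_pos
      obtain ⟨x, hx⟩ := hne
      have hlt : 1 < F.card := by omega
      obtain ⟨y, hy, hyx⟩ := Finset.exists_mem_ne hlt x
      have hinf := hG ((F.erase x).image (fun y => x⁻¹ * y)) (by
        refine Finset.card_image_le.trans ?_
        rw [Finset.card_erase_of_mem hx]
        omega) ⟨x⁻¹ * y, Finset.mem_image.2 ⟨y, Finset.mem_erase.2 ⟨hyx, hy⟩, rfl⟩, by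
          intro h
          exact hyx (inv_mul_eq_one.1 h).symm⟩
      rw [← quo_gen F x hx] at hinf
      exact not_finite_iff_infinite.2 hinf hfin
    apply regular_of_kd
    rw [← kd_card_one α F hF hone]
    exact hk
  refine ⟨?_, h2, ?_, ?_⟩
  · intro G _ α hα
    obtain ⟨F, hF, hne, hfin, hk, hF2⟩ := h1 G α hα
    refine ⟨F, hF, hne, hfin, ⟨part α F, fun x hx => part_pos _ _ hx,
      fun x hx => part_neg _ _ hx, ?_⟩, hF2⟩
    rw [kerDim_eq, kerDim_eq]
    exact hk
  · intro G _ htf α hα hcard hinf
    refine h2 G 1 ?_ α hα (Or.inr ⟨by omega, hinf⟩)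
    intro S hS hs
    obtain ⟨s, hsS, hs1⟩ := hs
    have hSs : S = {s} := by
      apply (Finset.eq_of_subset_of_card_le (Finset.singleton_subset_iff.2 hsS) ?_).symm
      rw [Finset.card_singleton]
      exact hS
    rw [hSs, Finset.coe_singleton, ← Subgroup.zpowers_eq_closure]
    rw [← not_finite_iff_infinite]
    intro hfin
    letI : CommGroup (Subgroup.zpowers s) :=
      { (inferInstance : Group (Subgroup.zpowers s)) with
        mul_comm := fun a b => mul_comm' a b }
    have hfin' : Finite (Subgroup.zpowers s) :=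
      Finite.of_equiv _ (Abelianization.equivOfComm (H := Subgroup.zpowers s)).symm.toEquiv
    have h3 : IsOfFinOrder s := finite_zpowers.1 (Set.toFinite _)
    obtain ⟨n, hn, h4⟩ := isOfFinOrder_iff_pow_eq_one.1 h3
    exact hs1 (htf s n hn h4)
  · intro G _
    constructor
    · intro h K _ _ β hβ
      apply regular_of_kd
      have h3 : kd (β.mapDomain K.subtype) = kd β := kd_push K.subtype K.subtype_injective β
      rw [← h3]
      have h4 : β.mapDomain K.subtype ≠ 0 := by
        intro h0
        apply hβ
        apply Finsupp.mapDomain_injective K.subtype_injective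
        rw [h0, Finsupp.mapDomain_zero]
      rw [kd_of_regular _ (h _ h4)]
    · intro h α hα
      obtain ⟨F, hF, hne, hfin, hk, -⟩ := h1 G α hα
      obtain ⟨t, ht⟩ := hne
      apply regular_of_kd
      refine hk.trans ?_
      have hsup := filter_support α F hF
      have hsub : ∀ x ∈ (part α F).support, t⁻¹ * x ∈ quo F := by
        intro x hx
        rw [hsup] at hx
        exact mem_quo ht hx
      rw [← kd_res (quo F) t (part α F) hsub]
      have h4 : res (quo F) t (part α F) ≠ 0 := by
        intro h0
        have h5 := map_res (quo F) t (part α F) hsub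
        rw [h0, Finsupp.mapDomain_zero] at h5
        rw [← h5] at hsup
        rw [Finsupp.support_zero] at hsup
        rw [← hsup] at ht
        simp at ht
      rw [kd_of_regular _ (h (quo F) (quo_fg F) hfin _ h4)]

end Pool.Agent.Results.MP_0f25e6_al.FiniteAbelianizationParts
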