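import Pool.Agent.L0h7.UL.Fin
import Pool.Agent.L0h7.UL.Link
import Pool.Agent.L0h78.UL.LEFA

/-!
# The analytic zero divisor conjecture is a family of uniform estimates, also for finite groups

For an element `α` of the complex group algebra of a group `G` the kernel of `α` on `ℓ²(G)` has a von Neumann
dimension `kerDim α`; for a finite group `Q` it is the dimension of the kernel of the left multiplication by `α` on the
group algebra, divided by the order of `Q`.

(1) The analytic zero divisor conjecture for all torsion-free groups is equivalent to the following statement: for all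
`n` and `ε > 0` there is `L` such that `kerDim α ≤ ε` for ALL groups `G` and all `α ≠ 0` with at most `n` terms, provided
no product of at most `L` elements of the support of `α` and their inverses is a nontrivial element of order at most
`L`.

(2) For the torsion-free groups which are locally embeddable into finite groups (for instance residually finite) and
elements with integral coefficients the conjecture is equivalent to the corresponding statement on finite groups.

(3) The conjecture for the torsion-free groups which are locally embeddable into finite groups and complex coefficients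
implies the corresponding statement on finite groups with complex coefficients.
-/

set_option autoImplicit false

noncomputable section

namespace Pool.Agent.Results.MP_0f25e6_al.FiniteGroups

/-- `α * f` is nonzero for every nonzero square-summable `f`, where `(α * f)(g) = ∑ α(k) f(k⁻¹ g)`. -/
def Regular {G : Type} [Group G] (α : MonoidAlgebra ℂ G) : Prop :=
  ∀ f : G → ℂ, Memℓp f 2 → f ≠ 0 → ∃ g : G, ∑ k ∈ α.coeff.support, α.coeff k * f (k⁻¹ * g) ≠ 0

/-- The kernel of left convolution by `α` on `ℓ²(G)`: all square-summable `f` with `α * f = 0`. -/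
def kernel {G : Type} [Group G] (α : MonoidAlgebra ℂ G) : Set (lp (fun _ : G => ℂ) 2) :=
  {f | ∀ g : G, ∑ k ∈ α.coeff.support, α.coeff k * f (k⁻¹ * g) = 0}

open Classical in
/-- The von Neumann dimension of the kernel of left convolution by `α`: one minus the square of the
distance from the basis vector at the identity of `G` to the kernel (this is the squared length of
the projection of that vector to the kernel). -/
def kerDim {G : Type} [Group G] (α : MonoidAlgebra ℂ G) : ℝ :=
  1 - Metric.infDist (lp.single 2 (1 : G) (1 : ℂ)) (kernel α) ^ 2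

/-- `G` is torsion-free. -/
def TorsionFree (G : Type) [Group G] : Prop := ∀ g : G, ∀ k : ℕ, 0 < k → g ^ k = 1 → g = 1

/-- No product of at most `L` elements of the support of `α` and their inverses is a nontrivial
element of order at most `L`. -/
def NoShortTorsion {G : Type} [Group G] (α : MonoidAlgebra ℂ G) (L : ℕ) : Prop :=
  ∀ l : List G, l.length ≤ L → (∀ x ∈ l, x ∈ α.coeff.support ∨ x⁻¹ ∈ α.coeff.support) →
    ∀ k : ℕ, 0 < k → k ≤ L → l.prod ^ k = 1 → l.prod = 1

/-- `G` is locally embeddable into finite groups. -/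
def LocallyFiniteEmbeddable (G : Type) [Group G] : Prop :=
  ∀ E : Finset G, ∃ (Q : Type) (_ : Group Q) (_ : Finite Q) (f : G → Q),
    (∀ x ∈ E, ∀ y ∈ E, f (x * y) = f x * f y) ∧ ∀ x ∈ E, ∀ y ∈ E, f x = f y → x = y

/-- All coefficients of `α` are integers. -/
def Integral {G : Type} [Group G] (α : MonoidAlgebra ℂ G) : Prop :=
  ∀ x : G, ∃ z : ℤ, α.coeff x = z

/-- The dimension of the kernel of the left multiplication by `α` on the group algebra. -/
def nullity {Q : Type} [Group Q] (α : MonoidAlgebra ℂ Q) : ℕ :=
  Module.finrank ℂ (LinearMap.ker (LinearMap.mulLeft ℂ α))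

open Pool.Agent.L0h7.UL

theorem kernel_eq {G : Type} [Group G] (α : MonoidAlgebra ℂ G) :
    kernel α = (LinearMap.ker (H61R3NG.Top G α : H61R3NG.E2 G →ₗ[ℂ] H61R3NG.E2 G) :
      Set (H61R3NG.E2 G)) := by
  ext f
  simp only [kernel, SetLike.mem_coe, LinearMap.mem_ker]
  constructor
  · intro h
    apply lp.ext
    funext g
    have := H61R3NG.Top_apply_apply α f g
    rw [show ((H61R3NG.Top G α : H61R3NG.E2 G →ₗ[ℂ] H61R3NG.E2 G) f) = H61R3NG.Top G α f from rfl,
      this]
    exact h g
  · intro h g
    rw [← H61R3NG.Top_apply_apply α f g]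
    have h' : H61R3NG.Top G α f = 0 := h
    rw [h']
    rfl

theorem kerDim_eq {G : Type} [Group G] (α : MonoidAlgebra ℂ G) : kerDim α = kdim α := by
  classical
  set V := LinearMap.ker (H61R3NG.Top G α : H61R3NG.E2 G →ₗ[ℂ] H61R3NG.E2 G) with hV
  unfold kerDim
  rw [kernel_eq]
  set d : H61R3NG.E2 G := H61R3NG.dl 1 with hd
  have hd2 : (lp.single 2 (1 : G) (1 : ℂ) : H61R3NG.E2 G) = d := by
    rw [hd]
    rfl
  rw [hd2]
  have h1 : Metric.infDist d (V : Set (H61R3NG.E2 G)) = ‖d - V.starProjection d‖ := by
    rw [Submodule.starProjection_minimal, Metric.infDist_eq_iInf]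
    simp only [dist_eq_norm]
    rfl
  rw [h1]
  have h2 : ‖d‖ ^ 2 = ‖V.starProjection d‖ ^ 2 + ‖Vᗮ.starProjection d‖ ^ 2 :=
    Submodule.norm_sq_eq_add_norm_sq_starProjection d V
  have h3 : Vᗮ.starProjection d = d - V.starProjection d := by
    rw [← Submodule.starProjection_orthogonal_val]
  have h4 : ‖d‖ = 1 := by
    rw [← hd2]
    simp
  rw [h3, h4] at h2
  unfold kdim H61R3NG.kd H61R3NG.xi
  rw [← hd]
  linarith

theorem seq : S_SEQ := Pool.Agent.L0h92.UL.t_SEQ
  (t_LIM Pool.Agent.L0h8.UL.t_SIG Pool.Agent.L0h8.UL.t_FORM)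

theorem lefa : S_LEFA := Pool.Agent.L0h78.UL.t_LEFA Pool.Agent.L0h8.UL.t_SIG
  Pool.Agent.L0h8.UL.t_FORM Pool.Agent.L0h69.UL.t_LUE

theorem nullity_le {Q : Type} [Group Q] [Finite Q] (α : MonoidAlgebra ℂ Q) (ε : ℝ) :
    (nullity α : ℝ) ≤ ε * Nat.card Q ↔ kdim α ≤ ε := by
  have h1 := Pool.Agent.L0h69.UL.t_FIN Q α
  have h2 : (0 : ℝ) < Nat.card Q := by exact_mod_cast Nat.card_pos
  unfold nullity
  rw [← h1]
  exact mul_le_mul_iff_left₀ h2

/-- (1) The analytic zero divisor conjecture for torsion-free groups is equivalent to uniform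
estimates for the kernel dimensions over all groups without short torsion. (2) For torsion-free
groups which are locally embeddable into finite groups and integral coefficients it is equivalent to
uniform estimates for finite groups. (3) For complex coefficients it implies such estimates for
finite groups. -/
theorem result :
    ((∀ (G : Type) [Group G], TorsionFree G → ∀ α : MonoidAlgebra ℂ G, α ≠ 0 → Regular α) ↔
      ∀ (n : ℕ) (ε : ℝ), 0 < ε → ∃ L : ℕ, ∀ (G : Type) [Group G] (α : MonoidAlgebra ℂ G),
        α ≠ 0 → α.coeff.support.card ≤ n → NoShortTorsion α L → kerDim α ≤ ε) ∧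
    ((∀ (G : Type) [Group G], TorsionFree G → LocallyFiniteEmbeddable G →
        ∀ α : MonoidAlgebra ℂ G, α ≠ 0 → Integral α → Regular α) ↔
      ∀ (n : ℕ) (M ε : ℝ), 0 < ε → ∃ L : ℕ, ∀ (Q : Type) [Group Q] [Finite Q]
        (α : MonoidAlgebra ℂ Q), α ≠ 0 → α.coeff.support.card ≤ n → Integral α →
        (∀ x, ‖α.coeff x‖ ≤ M) → NoShortTorsion α L → (nullity α : ℝ) ≤ ε * Nat.card Q) ∧
    ((∀ (G : Type) [Group G], TorsionFree G → LocallyFiniteEmbeddable G →
        ∀ α : MonoidAlgebra ℂ G, α ≠ 0 → Regular α) →
      ∀ (n : ℕ) (ε : ℝ), 0 < ε → ∃ L : ℕ, ∀ (Q : Type) [Group Q] [Finite Q]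
        (α : MonoidAlgebra ℂ Q), α ≠ 0 → α.coeff.support.card ≤ n → NoShortTorsion α L →
        (nullity α : ℝ) ≤ ε * Nat.card Q) := by
  refine ⟨?_, ?_, ?_⟩
  · have h := t_UNI seq
    simp only [kerDim_eq]
    refine Iff.trans ?_ h
    constructor
    · intro h1 G _ hG α hα
      exact (kdim_eq_zero_iff α).2 (h1 G hG α hα)
    · intro h1 G _ hG α hα
      exact (kdim_eq_zero_iff α).1 (h1 G hG α hα)
  · have h := t_UNF seq lefa
    constructor
    · intro h1 n M ε hε
      obtain ⟨L, hL⟩ := h.1 (fun G _ hG hL α hα hI =>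
        (kdim_eq_zero_iff α).2 (h1 G hG hL α hα hI)) n M ε hε
      exact ⟨L, fun Q _ _ α h0 hc hI hM hN => (nullity_le α ε).2 (hL Q α h0 hc hI hM hN)⟩
    · intro h1 G _ hG hL α hα hI
      refine (kdim_eq_zero_iff α).1 (h.2 (fun n M ε hε => ?_) G hG hL α hα hI)
      obtain ⟨L, hL⟩ := h1 n M ε hε
      exact ⟨L, fun Q _ _ α h0 hc hI hM hN => (nullity_le α ε).1 (hL Q α h0 hc hI hM hN)⟩
  · intro h n ε hε
    by_contra hcon
    push Not at hcon
    choose G hG hF α h0 hc hN hk using hcon
    obtain ⟨G', hG', α', hTF, hα', hle, hLEF, -⟩ := seq n ε G α h0 hc hN (fun k => by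
      by_contra hlt
      have h1 := (nullity_le (α k) ε).2 (not_le.1 hlt).le
      linarith [hk k])
    have h1 := (kdim_eq_zero_iff α').2 (h G' hTF (hLEF hF) α' hα')
    linarith

end Pool.Agent.Results.MP_0f25e6_al.FiniteGroups
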