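import Pool.Agent.L0h7.FO.Ker
import Pool.Agent.TH107.RF.CosetZD
import Pool.Agent.TH107.RF.Conv
import Pool.Agent.W649.ZL.Supp

set_option autoImplicit false

/-!
# Foldings of labelled graphs and the analytic zero divisor conjecture for Artin groups

Local indicability of Artin groups is inherited along foldings of the labelled graph. The proof
uses the faithful representation of the Artin group by matrices over a free algebra of the starting
library (`TH107.RF`): its parameters are chosen so that modulo an ideal the Gram matrix comes from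
the folded graph. A finitely generated subgroup of the kernel of the folding then either has a
nontrivial homomorphism to an additive group of complex numbers, or lies in the first step of a
filtration with torsion-free quotients.
-/

namespace Pool.Agent.Results.MP_0f25e6_al.FoldingArtin

/-- the alternating word `s t s t ⋯` with `k` letters -/
def word {S : Type} : ℕ → S → S → FreeGroup S
  | 0, _, _ => 1
  | k + 1, s, t => FreeGroup.of s * word k t s

/-- The Artin group of a Coxeter matrix; an entry `0` stands for the label infinity, that is, for no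
relation. -/
abbrev ArtinGroup {S : Type} (M : CoxeterMatrix S) : Type :=
  PresentedGroup {r : FreeGroup S | ∃ s t : S, M.M s t ≠ 0 ∧
    r = word (M.M s t) s t * (word (M.M s t) t s)⁻¹}

/-- `α * f` is nonzero for every nonzero square-summable `f`, where
`(α * f)(g) = ∑ α(k) f(k⁻¹ g)`. -/
def Regular {G : Type} [Group G] (α : G →₀ ℂ) : Prop :=
  ∀ f : G → ℂ, Memℓp f 2 → f ≠ 0 → ∃ g : G, ∑ k ∈ α.support, α k * f (k⁻¹ * g) ≠ 0

/-- Every nontrivial finitely generated subgroup has a nontrivial homomorphism to the integers. -/
def LocallyIndicable (G : Type) [Group G] : Prop :=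
  ∀ H : Subgroup G, H.FG → H ≠ ⊥ → ∃ φ : H →* Multiplicative ℤ, ∃ h, φ h ≠ 1

/-- If `m_ij` and `m_jk` are finite and at least three, then `m_ik` is infinite. -/
def RankTwo {S : Type} (M : CoxeterMatrix S) : Prop :=
  ∀ i j k : S, i ≠ k → 3 ≤ M.M i j → 3 ≤ M.M j k → M.M i k = 0

/-- The map `κ` folds the labelled graph of `M` to that of `M'`: all finite labels inside the fibres
of `κ` are equal to one number `m`, and the finite labels between different fibres are those of
`M'`. -/
structure Folds {S C : Type} (M : CoxeterMatrix S) (M' : CoxeterMatrix C) (κ : S → C) (m : ℕ) :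
    Prop where
  inner : ∀ s t, s ≠ t → κ s = κ t → M.M s t = 0 ∨ M.M s t = m
  outer : ∀ s t, κ s ≠ κ t → M.M s t = 0 ∨ M.M s t = M'.M (κ s) (κ t)

/-- the part of the Coxeter matrix `M` on the fibre of `κ` over `c` -/
def part {S C : Type} (M : CoxeterMatrix S) (κ : S → C) (c : C) :
    CoxeterMatrix {s : S // κ s = c} where
  M i j := M.M i.1 j.1
  isSymm := by
    ext i j
    exact M.symmetric j.1 i.1
  diagonal i := M.diagonal i.1
  off_diagonal i j h := M.off_diagonal i.1 j.1 fun h' => h (Subtype.ext h')

/-- The labelled graphs which can be reduced to single vertices by foldings (`fold`) and by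
splitting the vertices into classes such that all labels between different classes are two or
infinity (`split`); all graphs on the way are finite and satisfy `RankTwo`. -/
inductive Foldable : (S : Type) → CoxeterMatrix S → Prop
  | point (S : Type) (M : CoxeterMatrix S) : Subsingleton S → Foldable S M
  | fold (S C : Type) (M : CoxeterMatrix S) (M' : CoxeterMatrix C) (κ : S → C) (m : ℕ) :
      Finite S → RankTwo M → Folds M M' κ m → Foldable C M' → Foldable S M
  | split (S C : Type) (M : CoxeterMatrix S) (κ : S → C) : Finite S → RankTwo M →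
      (∀ s t, κ s ≠ κ t → M.M s t = 0 ∨ M.M s t = 2) →
      (∀ c, Foldable {s : S // κ s = c} (part M κ c)) → Foldable S M

/-- The graph of the finite labels is a forest, and its vertices are ordered such that each is
adjacent to at most one earlier vertex. -/
def Forest {n : ℕ} (M : CoxeterMatrix (Fin n)) : Prop :=
  ∀ i j k : Fin n, j < i → k < i → M.M i j ≠ 0 → M.M i k ≠ 0 → j = k

open Pool.Agent.TH107.RF (Art rels alt alt_succ LI li_classes)

theorem word_eq {S : Type} (k : ℕ) : ∀ s t : S,
    word k s t = alt k (FreeGroup.of s) (FreeGroup.of t) := by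
  induction k with
  | zero => intro s t; rfl
  | succ k ih => intro s t; rw [word, alt_succ, ih]

theorem rels_eq {S : Type} (M : CoxeterMatrix S) :
    {r : FreeGroup S | ∃ s t : S, M.M s t ≠ 0 ∧ r = word (M.M s t) s t * (word (M.M s t) t s)⁻¹} =
      rels M := by
  ext r
  refine exists_congr fun s => exists_congr fun t => and_congr_right fun _ => ?_
  rw [word_eq, word_eq]

theorem folds_to {S C : Type} {M : CoxeterMatrix S} {M' : CoxeterMatrix C} {κ : S → C} {m : ℕ}
    (h : Folds M M' κ m) : L0h7.FO.Folds M M' κ m := ⟨h.inner, h.outer⟩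

theorem finite_of {S : Type} {M : CoxeterMatrix S} (h : Foldable S M) : Finite S := by
  induction h with
  | point S M h => exact @Finite.of_subsingleton S h
  | fold S C M M' κ m h => exact h
  | split S C M κ h => exact h

theorem li_of {S : Type} {M : CoxeterMatrix S} (h : Foldable S M) : LI (Art M) := by
  classical
  induction h with
  | point S M h =>
    have : Finite S := @Finite.of_subsingleton S h
    have : Fintype S := Fintype.ofFinite S
    exact L0h7.FO.li_foldable L0h90.FO.s_fold (L0h7.FO.Foldable.point S M h)
  | fold S C M M' κ m hS hR hF hC ih =>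
    have : Fintype S := Fintype.ofFinite S
    have : Finite C := finite_of hC
    have : Fintype C := Fintype.ofFinite C
    exact L0h90.FO.s_fold (M' := M') hR (folds_to hF) ih
  | split S C M κ hS hR hout _ ih =>
    have : Fintype S := Fintype.ofFinite S
    exact li_classes hR hout ih

theorem of_class {S : Type} [Fintype S] [DecidableEq S] {M : CoxeterMatrix S}
    (h : L0h7.FO.Foldable S M) : Foldable S M := by
  induction h with
  | point S M h => exact Foldable.point S M h
  | fold S C M M' κ m hR hFo _ ih =>
    exact Foldable.fold S C M M' κ m inferInstance hR ⟨hFo.inner, hFo.outer⟩ ih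
  | split S C M κ hR hout _ ih => exact Foldable.split S C M κ inferInstance hR hout ih

/-- local indicability gives the analytic zero divisor property for elements supported in a coset -/
theorem regular_of_li {G : Type} [Group G] (H : Subgroup G) (hH : LI H) (α : G →₀ ℂ) (g : G)
    (hα : α ≠ 0) (hg : ∀ h ∈ α.support, g⁻¹ * h ∈ H) : Regular α := by
  refine (Pool.Agent.W649.ZL.regular_iff α).2 ?_
  exact Pool.Agent.W649.ZL.LI_coset_injective g H hH α hg hα

theorem part_one {S : Type} (M : CoxeterMatrix S) (h : Foldable S M) (R : Set (FreeGroup S))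
    (hR : R = rels M) : LocallyIndicable (PresentedGroup R) ∧
      ∀ α : PresentedGroup R →₀ ℂ, α ≠ 0 → Regular α := by
  subst hR
  refine ⟨li_of h, fun α hα => ?_⟩
  refine (Pool.Agent.W649.ZL.regular_iff α).2 ?_
  exact Pool.Agent.W649.ZL.LI_injective _ _ (li_of h) α rfl hα

theorem part_four {S C : Type} [Finite S] [Finite C] (M : CoxeterMatrix S)
    (M' : CoxeterMatrix C) (κ : S → C) (m : ℕ) (hM : RankTwo M) (h : Folds M M' κ m)
    (R : Set (FreeGroup S)) (R' : Set (FreeGroup C)) (hR : R = rels M) (hR' : R' = rels M') :
    ∃ φ : PresentedGroup R →* PresentedGroup R',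
      (∀ s, φ (PresentedGroup.of s) = PresentedGroup.of (κ s)) ∧
      ∀ T : Subgroup (PresentedGroup R'), LocallyIndicable T →
        LocallyIndicable (T.comap φ) ∧ ∀ (α : PresentedGroup R →₀ ℂ) (g : PresentedGroup R),
          α ≠ 0 → (∀ h ∈ α.support, φ (g⁻¹ * h) ∈ T) → Regular α := by
  classical
  subst hR hR'
  have : Fintype S := Fintype.ofFinite S
  have : Fintype C := Fintype.ofFinite C
  refine ⟨L0h90.FO.fold (folds_to h), fun s => L0h90.FO.fold_sg (folds_to h) s, fun T hT => ?_⟩
  have hL := L0h7.FO.li_comap hM (folds_to h) T hT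
  exact ⟨hL, fun α g hα hg => regular_of_li _ hL α g hα fun x hx => Subgroup.mem_comap.2 (hg x hx)⟩

theorem part_three {X Y : Type} [Finite X] [Finite Y] (M : CoxeterMatrix (X ⊕ Y)) (l : X → ℕ)
    (hX : ∀ x x' : X, x ≠ x' → M.M (Sum.inl x) (Sum.inl x') = 0)
    (hY : ∀ y y' : Y, y ≠ y' → M.M (Sum.inr y) (Sum.inr y') = 0)
    (hl : ∀ (x : X) (y : Y), M.M (Sum.inl x) (Sum.inr y) = 0 ∨
      M.M (Sum.inl x) (Sum.inr y) = l x) : Foldable (X ⊕ Y) M := by
  classical
  obtain ⟨k, ⟨e⟩⟩ := Finite.exists_equiv_fin X
  have hRk : RankTwo M := by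
    intro i j k hik hij hjk
    have h1 : ∀ a : X ⊕ Y, M.M a a = 1 := M.diagonal
    rcases i with i | i <;> rcases j with j | j <;> rcases k with k | k
    · exact hX i k fun e => hik (by rw [e])
    · by_cases h : i = j
      · rw [h, h1] at hij; omega
      · rw [hX i j h] at hij; omega
    · exact hX i k fun e => hik (by rw [e])
    · by_cases h : j = k
      · rw [h, h1] at hjk; omega
      · rw [hY j k h] at hjk; omega
    · by_cases h : j = k
      · rw [h, h1] at hjk; omega
      · rw [hX j k h] at hjk; omega
    · exact hY i k fun e => hik (by rw [e])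
    · by_cases h : i = j
      · rw [h, h1] at hij; omega
      · rw [hY i j h] at hij; omega
    · exact hY i k fun e => hik (by rw [e])
  let l' : Fin k → ℕ := fun i => l (e.symm i)
  have hF : L0h7.FO.Forest (L0h7.FO.starM k l') := L0h7.FO.starM_forest k l'
  have hlx : ∀ (x : X) (y : Y), M.M (Sum.inl x) (Sum.inr y) = 0 ∨
      M.M (Sum.inl x) (Sum.inr y) = L0h7.FO.starM k l' (e x).succ 0 := by
    intro x y
    rw [L0h7.FO.starM_succ_zero]
    have e1 : l' (e x) = l x := by simp [l']
    rw [e1]
    rcases hl x y with h | h
    · exact Or.inl h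
    · by_cases h1 : l x = 1
      · have := M.off_diagonal (Sum.inl x) (Sum.inr y) (by simp)
        rw [h1] at h
        exact absurd h this
      · rw [if_neg h1]; exact Or.inr h
  refine Foldable.fold (X ⊕ Y) (Fin (k + 1)) M (L0h7.FO.starM k l')
    (Sum.elim (fun x => (e x).succ) (fun _ => 0)) 0 inferInstance hRk ⟨?_, ?_⟩
    (of_class (L0h7.FO.forest (k + 1) _ hF))
  · rintro (x | y) (x' | y') hne hk
    · exact Or.inl (hX x x' fun e => hne (by rw [e]))
    · exact absurd hk (Fin.succ_ne_zero _)
    · exact absurd hk.symm (Fin.succ_ne_zero _)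
    · exact Or.inl (hY y y' fun e => hne (by rw [e]))
  · rintro (x | y) (x' | y') hk
    · by_cases h : x = x'
      · exact absurd (by rw [h]) hk
      · exact Or.inl (hX x x' h)
    · exact hlx x y'
    · have s1 : M.M (Sum.inr y) (Sum.inl x') = M.M (Sum.inl x') (Sum.inr y) :=
        M.symmetric _ _
      have s2 : L0h7.FO.starM k l' 0 (e x').succ = L0h7.FO.starM k l' (e x').succ 0 :=
        (L0h7.FO.starM k l').symmetric _ _
      change M.M (Sum.inr y) (Sum.inl x') = 0 ∨ M.M (Sum.inr y) (Sum.inl x') =
        L0h7.FO.starM k l' 0 (e x').succ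
      rw [s1, s2]
      exact hlx x' y
    · exact absurd rfl hk

/-- 1. If the labelled graph of `M` is foldable, then the Artin group of `M` is locally indicable,
and `α * f ≠ 0` for all nonzero `α` in its complex group algebra and all nonzero square-summable
`f`.
2. Forests with arbitrary labels are foldable.
3. Bipartite graphs whose labels depend only on the vertex in the first class are foldable.
4. If `M` satisfies `RankTwo` and folds to `M'`, then for every locally indicable subgroup `T` of the
Artin group of `M'` the preimage of `T` in the Artin group of `M` is locally indicable, and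
`α * f ≠ 0` for all nonzero square-summable `f` and all nonzero `α` supported in one of its
cosets. -/
theorem result :
    (∀ (S : Type) (M : CoxeterMatrix S), Foldable S M →
      LocallyIndicable (ArtinGroup M) ∧ ∀ α : ArtinGroup M →₀ ℂ, α ≠ 0 → Regular α) ∧
    (∀ (n : ℕ) (M : CoxeterMatrix (Fin n)), Forest M → Foldable (Fin n) M) ∧
    (∀ (X Y : Type) [Finite X] [Finite Y] (M : CoxeterMatrix (X ⊕ Y)) (l : X → ℕ),
      (∀ x x' : X, x ≠ x' → M.M (Sum.inl x) (Sum.inl x') = 0) →
      (∀ y y' : Y, y ≠ y' → M.M (Sum.inr y) (Sum.inr y') = 0) →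
      (∀ (x : X) (y : Y), M.M (Sum.inl x) (Sum.inr y) = 0 ∨
        M.M (Sum.inl x) (Sum.inr y) = l x) → Foldable (X ⊕ Y) M) ∧
    ∀ (S C : Type) [Finite S] [Finite C] (M : CoxeterMatrix S) (M' : CoxeterMatrix C)
      (κ : S → C) (m : ℕ), RankTwo M → Folds M M' κ m →
      ∃ φ : ArtinGroup M →* ArtinGroup M',
        (∀ s, φ (PresentedGroup.of s) = PresentedGroup.of (κ s)) ∧
        ∀ T : Subgroup (ArtinGroup M'), LocallyIndicable T →
          LocallyIndicable (T.comap φ) ∧ ∀ (α : ArtinGroup M →₀ ℂ) (g : ArtinGroup M),
            α ≠ 0 → (∀ h ∈ α.support, φ (g⁻¹ * h) ∈ T) → Regular α := by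
  refine ⟨fun S M h => part_one M h _ (rels_eq M), fun n M h => ?_, ?_, ?_⟩
  · exact of_class (L0h7.FO.forest n M h)
  · intro X Y _ _ M l hX hY hl
    exact part_three M l hX hY hl
  · intro S C _ _ M M' κ m hR h
    exact part_four M M' κ m hR h _ _ (rels_eq M) (rels_eq M')

end Pool.Agent.Results.MP_0f25e6_al.FoldingArtin
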